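import Pool.Agent.MWA.StmtsQ

/-!
# Block MWA, row HDP (period `n` version of HVD)
-/

namespace Pool.Agent.MWA.H14

open Pool.Agent.Helper14_MV Pool.Agent.Helper2_MV Pool.Agent.MVO Pool.Agent.MWL Pool.Agent.MWS

theorem hdp (hTRN : MWL.TrnStmt) : HdpStmt := by
  intro n θ hn hRd k a i j hij hjk hai hab
  rcases Nat.eq_or_lt_of_le hij with rfl | hlt
  · exact hab
  have h0 : (FC.ofFIC θ).R 1 (v2 1 2) (v2 (n + 1) 2) := hRd
  have hB : BMap 1 k (fun t => if t = 0 then i else j) := by
    refine ⟨fun s t hst _ => ?_, fun t _ => ?_⟩
    · by_cases ht : t = 0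
      · have hs : s = 0 := by omega
        simp [ht, hs]
      · by_cases hs : s = 0
        · simp [ht, hs, hij]
        · simp [ht, hs]
    · by_cases ht : t = 0
      · simp only [ht, if_true]
        omega
      · simp only [ht, if_false]
        exact hjk
  have h1 := (FC.ofFIC θ).push k _ hB h0
  have e1 : ∀ p q t : ℕ, psh 1 (fun t => if t = 0 then i else j) (v2 p q) t =
      (if t = i then p else 0) + if t = j then q else 0 := by
    intro p q t
    unfold psh v2
    rw [Finset.sum_range_succ, Finset.sum_range_one]
    simp only [if_true, one_ne_zero, if_false, eq_comm (a := i), eq_comm (a := j)]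
  -- `z ~ z + n e_i`
  have h2 : ∀ z : ℕ → ℕ, 1 ≤ z i → 2 ≤ z j →
      (FC.ofFIC θ).R k z (fun t => z t + if t = i then n else 0) := by
    intro z hzi hzj
    refine (FC.ofFIC θ).ext ?_ ?_ ((FC.ofFIC θ).add
      (fun t => z t - ((if t = i then 1 else 0) + if t = j then 2 else 0)) h1)
    · intro t _
      rw [e1]
      by_cases ht : t = i
      · subst ht
        have h3 : ¬ t = j := by omega
        simp only [if_true, h3, if_false]
        omega
      · by_cases ht' : t = j
        · subst ht'
          simp only [ht, if_true, if_false]
          omega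
        · simp only [ht, ht', if_false]
          omega
    · intro t _
      rw [e1]
      by_cases ht : t = i
      · subst ht
        have h3 : ¬ t = j := by omega
        simp only [if_true, h3, if_false]
        omega
      · by_cases ht' : t = j
        · subst ht'
          simp only [ht, if_true, if_false]
          omega
        · simp only [ht, ht', if_false]
          omega
  have hne : ¬ i = j := by omega
  have hji : ¬ j = i := by omega
  have h3 := h2 (ad n a j) (by simp only [ad, hne, if_false]; omega)
    (by simp only [ad, if_true]; omega)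
  have h4 := h2 (fun t => ad n a j t + if t = i then n else 0)
    (by simp only [ad, hne, if_false, if_true]; omega)
    (by simp only [ad, hji, if_false, if_true]; omega)
  have h5 : AbN n θ k (ad n a j) i := by
    show (FC.ofFIC θ).R k (ad n a j) (ad n (ad n a j) i)
    refine (FC.ofFIC θ).ext ?_ ?_ ((FC.ofFIC θ).trans h3 h4)
    · intro t _
      rfl
    · intro t _
      show _ = ad n a j t + if t = i then 2 * n else 0
      split_ifs <;> omega
  exact ((hTRN n (FC.ofFIC θ) k a i).1 (ad n a j) hab).2 h5

end Pool.Agent.MWA.H14
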