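import Pool.Agent.MWA.StmtsB

/-!
# Block MWA, row HVD
-/

namespace Pool.Agent.MWA.H14

open Pool.Agent.Helper14_MV Pool.Agent.Helper2_MV Pool.Agent.MVO Pool.Agent.MWL Pool.Agent.MWS

theorem hvd (hTRN : MWL.TrnStmt) : HvdStmt := by
  intro θ hRd k a i j hij hjk hai hab
  rcases Nat.eq_or_lt_of_le hij with rfl | hlt
  · exact hab
  have h0 : (FC.ofFIC θ).R 1 (v2 1 2) (v2 2 2) := hRd
  have hB : BMap 1 k (fun t => if t = 0 then i else j) := by
    refine ⟨fun s t hst _ => ?_, fun t _ => ?_⟩
    · by_cases ht : t = 0
      · have hs : s = 0 := by omega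
        simp [ht, hs]
      · by_cases hs : s = 0
        · simp [ht, hs, hij]
        · simp [ht, hs]
    · by_cases ht : t = 0
      · simp only [ht, if_true]
        omega
      · simp only [ht, if_false]
        exact hjk
  have h1 := (FC.ofFIC θ).push k _ hB h0
  have e1 : ∀ p q t : ℕ, psh 1 (fun t => if t = 0 then i else j) (v2 p q) t =
      (if t = i then p else 0) + if t = j then q else 0 := by
    intro p q t
    unfold psh v2
    rw [Finset.sum_range_succ, Finset.sum_range_one]
    simp only [if_true, one_ne_zero, if_false, eq_comm (a := i), eq_comm (a := j)]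
  -- `a + 2 e_j ~ a + e_i + 2 e_j`
  have h2 : (FC.ofFIC θ).R k (fun t => a t + if t = j then 2 else 0)
      (fun t => a t + (if t = i then 1 else 0) + if t = j then 2 else 0) := by
    refine (FC.ofFIC θ).ext ?_ ?_ ((FC.ofFIC θ).add (fun t => a t - if t = i then 1 else 0) h1)
    · intro t _
      rw [e1]
      by_cases ht : t = i
      · subst ht
        have h3 : 0 < a t := Nat.pos_of_ne_zero hai
        simp only [if_true]
        split_ifs <;> omega
      · simp only [ht, if_false]
        split_ifs <;> omega
    · intro t _
      rw [e1]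
      by_cases ht : t = i
      · subst ht
        have h3 : 0 < a t := Nat.pos_of_ne_zero hai
        simp only [if_true]
        split_ifs <;> omega
      · simp only [ht, if_false]
        split_ifs <;> omega
  have h3 : (FC.ofFIC θ).R k (fun t => a t + (if t = i then 1 else 0) + if t = j then 2 else 0)
      (fun t => a t + (if t = i then 2 else 0) + if t = j then 2 else 0) := by
    refine (FC.ofFIC θ).ext ?_ ?_ ((FC.ofFIC θ).add (fun t => if t = i then 1 else 0) h2)
    · intro t _
      show _ = _
      split_ifs <;> omega
    · intro t _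
      show _ = _
      split_ifs <;> omega
  have h4 : AbF θ k (a2 a j) i := by
    show (FC.ofFIC θ).R k (a2 a j) (ad 1 (a2 a j) i)
    refine (FC.ofFIC θ).ext ?_ ?_ ((FC.ofFIC θ).trans h2 h3)
    · intro t _
      rfl
    · intro t _
      show _ = a t + (if t = j then 2 else 0) + if t = i then 2 * 1 else 0
      split_ifs <;> omega
  exact ((hTRN 1 (FC.ofFIC θ) k a i).1 (a2 a j) hab).2 h4

end Pool.Agent.MWA.H14
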